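import Pool.Agent.AT8.Stmts3
import Pool.Agent.Helper50_PP.Ffa

/-!
# Squad AT8, row AV2: the averages for a fixed character are in the field of the `ℓ`-th roots of unity
-/

open scoped BigOperators

noncomputable section

namespace Pool.Agent.PP.T8.H39

open Pool.Agent.Helper51_AWC Pool.Agent.Helper79_WRA Pool.Agent.PP Pool.Agent.PP.KF
open Pool.Agent.PP.K9 Pool.Agent.PP.K9.H97 Pool.Agent.PP.H75 Pool.Agent.PP.T3 Pool.Agent.PP.T2

attribute [local instance] Ideal.Quotient.field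

/-- a geometric sum of roots of unity -/
theorem geo {ℓ a : ℕ} (hℓ : ℓ.Prime) (ha : 0 < a) {ζ : ℂ} (hζ : IsPrimitiveRoot ζ (ℓ ^ a)) (i : ℕ) :
    ∑ t ∈ Finset.range (ℓ ^ (a - 1)), ζ ^ (i * (ℓ * t)) =
      if ℓ ^ (a - 1) ∣ i then (ℓ : ℂ) ^ (a - 1) else 0 := by
  have hpow : ℓ ^ a = ℓ ^ (a - 1) * ℓ := by
    rw [← pow_succ, Nat.sub_add_cancel ha]
  have h1 : ∀ t : ℕ, ζ ^ (i * (ℓ * t)) = (ζ ^ (i * ℓ)) ^ t := by
    intro t
    rw [← pow_mul]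
    ring_nf
  simp only [h1]
  split_ifs with h
  · obtain ⟨c, rfl⟩ := h
    have h2 : ζ ^ (ℓ ^ (a - 1) * c * ℓ) = 1 := by
      have e1 : ℓ ^ (a - 1) * c * ℓ = ℓ ^ a * c := by rw [hpow]; ring
      rw [e1, pow_mul, hζ.pow_eq_one, one_pow]
    rw [h2]
    simp
  · have h2 : ζ ^ (i * ℓ) ≠ 1 := by
      intro h3
      rw [hζ.pow_eq_one_iff_dvd, hpow] at h3
      exact h (Nat.dvd_of_mul_dvd_mul_right hℓ.pos h3)
    have h3 := geom_sum_mul (ζ ^ (i * ℓ)) (ℓ ^ (a - 1))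
    have h4 : (ζ ^ (i * ℓ)) ^ ℓ ^ (a - 1) = 1 := by
      have e1 : i * ℓ * ℓ ^ (a - 1) = ℓ ^ a * i := by rw [hpow]; ring
      rw [← pow_mul, e1, pow_mul, hζ.pow_eq_one, one_pow]
    rw [h4, sub_self] at h3
    rcases mul_eq_zero.1 h3 with h5 | h5
    · exact h5
    · exact absurd (sub_eq_zero.1 h5) h2

/-- a function of `j` modulo `ℓ` which is a combination of the powers of `ζ` is a combination of the
powers of `ζ ^ (ℓ ^ (a - 1))` -/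
theorem avg {ℓ a : ℕ} (hℓ : ℓ.Prime) (ha : 0 < a) {ζ : ℂ} (hζ : IsPrimitiveRoot ζ (ℓ ^ a))
    (n : ℕ → ℤ) (g : ℕ → ℂ)
    (hg : ∀ j, ¬ ℓ ∣ j → g j = ∑ i ∈ Finset.range (ℓ ^ a), (n i : ℂ) * ζ ^ (i * j))
    (hper : ∀ j j', ¬ ℓ ∣ j → j ≡ j' [MOD ℓ] → g j = g j') (j : ℕ) (hj : ¬ ℓ ∣ j) :
    g j = ∑ i ∈ Finset.range ℓ, (n (i * ℓ ^ (a - 1)) : ℂ) * (ζ ^ ℓ ^ (a - 1)) ^ (i * j) := by
  have hpow : ℓ ^ a = ℓ ^ (a - 1) * ℓ := by
    rw [← pow_succ, Nat.sub_add_cancel ha]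
  have hq : 0 < ℓ ^ (a - 1) := pow_pos hℓ.pos _
  have hqc : (ℓ : ℂ) ^ (a - 1) ≠ 0 := pow_ne_zero _ (by exact_mod_cast hℓ.ne_zero)
  have h1 : ∀ t : ℕ, g j = ∑ i ∈ Finset.range (ℓ ^ a), (n i : ℂ) * ζ ^ (i * j) *
      ζ ^ (i * (ℓ * t)) := by
    intro t
    have hmod : j ≡ j + ℓ * t [MOD ℓ] := by
      unfold Nat.ModEq
      rw [Nat.add_mul_mod_self_left]
    have hnd : ¬ ℓ ∣ j + ℓ * t := by
      intro h
      exact hj ((Nat.dvd_add_left (dvd_mul_right ℓ t)).1 h)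
    rw [hper j (j + ℓ * t) hj hmod, hg _ hnd]
    refine Finset.sum_congr rfl fun i _ => ?_
    rw [mul_add, pow_add]
    ring
  have h2 : (ℓ : ℂ) ^ (a - 1) * g j = ∑ i ∈ Finset.range (ℓ ^ a), (n i : ℂ) * ζ ^ (i * j) *
      (if ℓ ^ (a - 1) ∣ i then (ℓ : ℂ) ^ (a - 1) else 0) := by
    have h3 : ∑ t ∈ Finset.range (ℓ ^ (a - 1)), g j = (ℓ : ℂ) ^ (a - 1) * g j := by
      rw [Finset.sum_const, Finset.card_range, nsmul_eq_mul]
      push_cast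
      rfl
    rw [← h3, Finset.sum_congr rfl fun t _ => h1 t, Finset.sum_comm]
    refine Finset.sum_congr rfl fun i _ => ?_
    rw [← Finset.mul_sum, geo hℓ ha hζ i]
  have h4 : ∑ i ∈ Finset.range (ℓ ^ a), (n i : ℂ) * ζ ^ (i * j) *
      (if ℓ ^ (a - 1) ∣ i then (ℓ : ℂ) ^ (a - 1) else 0) =
      (ℓ : ℂ) ^ (a - 1) * ∑ i ∈ (Finset.range (ℓ ^ a)).filter (fun i => ℓ ^ (a - 1) ∣ i),
        (n i : ℂ) * ζ ^ (i * j) := by
    rw [Finset.mul_sum, Finset.sum_filter]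
    refine Finset.sum_congr rfl fun i _ => ?_
    split_ifs <;> ring
  rw [h4] at h2
  rw [mul_left_cancel₀ hqc h2]
  refine Finset.sum_nbij' (fun i => i / ℓ ^ (a - 1)) (fun i => i * ℓ ^ (a - 1)) ?_ ?_ ?_ ?_ ?_
  · intro i hi
    obtain ⟨hi1, -⟩ := Finset.mem_filter.1 hi
    rw [Finset.mem_range] at hi1 ⊢
    rw [hpow, mul_comm] at hi1
    exact Nat.div_lt_of_lt_mul (by rwa [mul_comm])
  · intro i hi
    rw [Finset.mem_range] at hi
    rw [Finset.mem_filter, Finset.mem_range, hpow, mul_comm i]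
    exact ⟨Nat.mul_lt_mul_of_pos_left hi hq, dvd_mul_right _ _⟩
  · intro i hi
    exact Nat.div_mul_cancel (Finset.mem_filter.1 hi).2
  · intro i _
    exact Nat.mul_div_cancel i hq
  · intro i hi
    obtain ⟨c, rfl⟩ := (Finset.mem_filter.1 hi).2
    have e1 : ℓ ^ (a - 1) * c / ℓ ^ (a - 1) = c := Nat.mul_div_cancel_left c hq
    rw [e1, mul_comm c (ℓ ^ (a - 1)), ← pow_mul, ← mul_assoc]

theorem cu_pow {G : Type} [Group G] {u : G} {j : ℕ} (h : j.Coprime (orderOf u)) :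
    Cu (u ^ j) = Cu u := by
  obtain ⟨m, hm⟩ := exists_pow_eq_self_of_coprime h
  ext g
  rw [Subgroup.mem_centralizer_singleton_iff, Subgroup.mem_centralizer_singleton_iff]
  constructor
  · intro h1
    have h2 : Commute g ((u ^ j) ^ m) := (show Commute g (u ^ j) from h1).pow_right m
    rw [hm] at h2
    exact h2
  · intro h1
    exact (show Commute g u from h1).pow_right j

/-- row AV2 -/
theorem av2 (inr : InrStmt) (vjc : VjcStmt) (dpw : DpwStmt) (rkx : RkxStmt) (pwu : PwuStmt)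
    (inx : K9.InxStmt) : Av2Stmt := by
  intro ℓ _ M _ hM hℓ2 G _ _ N hN e V γ b d c ε hD a k hk hka hexp y hy χ hχ hfix ζ hζ
  have hℓ : ℓ.Prime := Fact.out
  have hF : GoodF ℓ (FF M) := H50.fld ℓ hℓ M hM
  have hix : ¬ ℓ ∣ ix V γ :=
    inx ℓ M hM G e hD.ld.blk V hD.ld.tp hD.ld.ab γ hD.ld.gam.supp hD.ld.gam.blk hD.ld.und
  obtain ⟨-, h2, -, -⟩ := rkx ℓ (FF M) hF G e V γ hD.ld hix a k hk hka hexp y hy
  obtain ⟨-, h3, -⟩ := dpw ℓ M hM hℓ2 G e V γ b d c ε hD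
  have hWV : Uw (ℓ ^ k) V ≤ V := (pwu G (ℓ ^ k) V hD.ld.ab).2.1
  set W := Uw (ℓ ^ k) V with hW
  have := Fintype.ofFinite W
  have hu : ∀ w : W, Rg V γ (y * w) ∧ orderOf (y * w) = ℓ ^ a := fun w => h2 w w.2
  have hq : 0 < ℓ ^ a := pow_pos hℓ.pos a
  have hcop : ∀ j : ℕ, ¬ ℓ ∣ j → ∀ n : ℕ, j.Coprime (ℓ ^ n) := fun j hj n =>
    Nat.Coprime.pow_right n ((Nat.Prime.coprime_iff_not_dvd hℓ).2 hj).symm
  have hWc : ∀ j : ℕ, ¬ ℓ ∣ j → (Nat.card W).Coprime j := by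
    intro j hj
    have hp : IsPGroup ℓ W := hD.ld.tp.pg.to_le hWV
    obtain ⟨n, hn⟩ := IsPGroup.iff_card.1 hp
    rw [hn]
    exact (hcop j hj n).symm
  choose m hm using fun w : W => inr M G (y * w) (ℓ ^ a) hq
    (by rw [← (hu w).2]; exact pow_orderOf_eq_one _) (b (y * w)) (hD.lc _ (hu w).1).blk.ix
    (d (y * w)) (hD.dg _ (hu w).1) ζ hζ χ hχ.1
  have key : ∀ j, ¬ ℓ ∣ j → (Nat.card W : ℂ) * av M b d ε W (y ^ j) χ =
      ∑ w : W, (ε (y * w) : ℂ) *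
        (gv M (Cu (y * w)) ((y * w) ^ j) (b (y * w)) χ / d (y * w)) := by
    intro j hj
    have hWn : (Nat.card W : ℂ) ≠ 0 := by exact_mod_cast Nat.card_pos.ne'
    rw [av, finsum_eq_sum_of_fintype, mul_inv_cancel_left₀ hWn]
    refine (Fintype.sum_equiv (powCoprime (hWc j hj)) _ _ fun w => ?_).symm
    have hyw : y * (w : G) = w * y := hD.ld.ab y hy.mem w (hWV w.2)
    have e1 : y ^ j * ((powCoprime (hWc j hj) w : W) : G) = (y * w) ^ j := by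
      rw [(show Commute y (w : G) from hyw).mul_pow]
      rfl
    obtain ⟨-, hb, hd, he⟩ := h3 (y * w) (hu w).1 j hj
    rw [e1, he, vv, hb, hd, cu_pow]
    rw [(hu w).2]
    exact hcop j hj a
  have hd0 : ∀ w : W, (d (y * w) : ℂ) ≠ 0 := fun w => by
    exact_mod_cast (hD.dg _ (hu w).1).1.ne'
  refine ⟨fun i => ∑ w : W, ε (y * w) * m w (i * ℓ ^ (a - 1)), fun j hj => ?_⟩
  have hmain := avg hℓ (hk.trans_le hka) hζ (fun i => ∑ w : W, ε (y * w) * m w i)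
    (fun j => (Nat.card W : ℂ) * av M b d ε W (y ^ j) χ) ?_ ?_ j hj
  · exact hmain
  · intro j hj
    rw [key j hj]
    have h4 : ∀ w : W, (ε (y * w) : ℂ) *
        (gv M (Cu (y * w)) ((y * w) ^ j) (b (y * w)) χ / d (y * w)) =
        ∑ i ∈ Finset.range (ℓ ^ a), (ε (y * w) : ℂ) * ((m w i : ℂ) * ζ ^ (i * j)) := by
      intro w
      rw [hm w j, mul_div_cancel_left₀ _ (hd0 w), Finset.mul_sum]
    rw [Finset.sum_congr rfl fun w _ => h4 w, Finset.sum_comm]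
    refine Finset.sum_congr rfl fun i _ => ?_
    push_cast
    rw [Finset.sum_mul]
    refine Finset.sum_congr rfl fun w _ => ?_
    ring
  · intro j j' hj hjj
    have hj' : ¬ ℓ ∣ j' := fun h => hj ((hjj.dvd_iff dvd_rfl).2 h)
    rw [key j hj, key j' hj']
    refine Finset.sum_congr rfl fun w _ => ?_
    have hel : El ℓ (y * (w : G)) := ⟨a, by rw [← (hu w).2]; exact pow_orderOf_eq_one _⟩
    rw [vjc ℓ M hM G N hN (y * w) hel (b (y * w)) (hD.lc _ (hu w).1).blk.ix χ hχ.1 hfix j j' hj hjj]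

end Pool.Agent.PP.T8.H39
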